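import Pool.Agent.W707.HM.Stm

/-!
# The condition at the end point
-/

set_option autoImplicit false

namespace Pool.Agent.W253.HM707

open Set Filter Topology
open Pool.Agent.W360.MQ (cab RankOneConvex)
open Pool.Agent.W707.HM

/-- the function along the line -/
noncomputable def Gl (p : ℝ) (f : ℝ → ℝ) (u : ℝ) : ℝ := Wm p f !![1, 0; 0, u]

theorem norm_fst (u : ℝ) : ‖(cab !![1, 0; 0, u]).1‖ = |1 + u| / 2 := by
  have h : (cab !![1, 0; 0, u]).1 = (((1 + u) / 2 : ℝ) : ℂ) := by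
    simp [cab]
  rw [h, Complex.norm_real, Real.norm_eq_abs, abs_div, abs_two]

theorem norm_snd (u : ℝ) : ‖(cab !![1, 0; 0, u]).2‖ = |1 - u| / 2 := by
  have h : (cab !![1, 0; 0, u]).2 = (((1 - u) / 2 : ℝ) : ℂ) := by
    simp [cab]
  rw [h, Complex.norm_real, Real.norm_eq_abs, abs_div, abs_two]

theorem Gl_mid (p : ℝ) (f : ℝ → ℝ) {u : ℝ} (h1 : -1 ≤ u) (h2 : u ≤ 1) : Gl p f u = f u := by
  unfold Gl Wm wh
  rw [norm_fst, norm_snd, abs_of_nonneg (by linarith), abs_of_nonneg (by linarith)]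
  have h3 : (1 + u) / 2 + (1 - u) / 2 = 1 := by ring
  have h4 : (1 + u) / 2 - (1 - u) / 2 = u := by ring
  rw [h3, h4, Real.one_rpow, div_one, one_mul]

theorem Gl_neg (p : ℝ) (f : ℝ → ℝ) {e : ℝ} (he : 0 ≤ e) :
    Gl p f (-1 - e) = (1 + e) ^ p * f (-1 / (1 + e)) := by
  unfold Gl Wm wh
  rw [norm_fst, norm_snd, abs_of_nonpos (by linarith), abs_of_nonneg (by linarith)]
  have h3 : -(1 + (-1 - e)) / 2 + (1 - (-1 - e)) / 2 = 1 + e := by ring
  have h4 : -(1 + (-1 - e)) / 2 - (1 - (-1 - e)) / 2 = -1 := by ring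
  rw [h3, h4]

theorem rank_line {h : ℝ} (hh : h ≠ 0) : (!![0, 0; 0, h] : Matrix (Fin 2) (Fin 2) ℝ).rank = 1 := by
  classical
  have h1 : (!![0, 0; 0, h] : Matrix (Fin 2) (Fin 2) ℝ) = Matrix.diagonal ![0, h] := by
    ext i j
    fin_cases i <;> fin_cases j <;> simp
  rw [h1, Matrix.rank_diagonal, Fintype.card_eq_one_iff]
  refine ⟨⟨1, by simpa using hh⟩, ?_⟩
  rintro ⟨i, hi⟩
  apply Subtype.ext
  fin_cases i
  · simp at hi
  · rfl

theorem three {p : ℝ} {f : ℝ → ℝ} (hW : RankOneConvex (Wm p f)) {u1 u2 u3 : ℝ} (h12 : u1 ≤ u2)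
    (h23 : u2 ≤ u3) (h13 : u1 < u3) :
    (u3 - u1) * Gl p f u2 ≤ (u3 - u2) * Gl p f u1 + (u2 - u1) * Gl p f u3 := by
  have hd : 0 < u3 - u1 := by linarith
  have h1 := hW !![1, 0; 0, u1] !![0, 0; 0, u3 - u1] (rank_line hd.ne') ((u2 - u1) / (u3 - u1))
    (div_nonneg (by linarith) hd.le) ((div_le_one hd).2 (by linarith))
  have h2 : (!![1, 0; 0, u1] + !![0, 0; 0, u3 - u1] : Matrix (Fin 2) (Fin 2) ℝ) =
      !![1, 0; 0, u3] := by
    ext i j
    fin_cases i <;> fin_cases j <;> simp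
  rw [h2] at h1
  have h3 : ((1 - (u2 - u1) / (u3 - u1)) • (!![1, 0; 0, u1] : Matrix (Fin 2) (Fin 2) ℝ) +
      ((u2 - u1) / (u3 - u1)) • (!![1, 0; 0, u3] : Matrix (Fin 2) (Fin 2) ℝ)) =
      !![1, 0; 0, u2] := by
    ext i j
    fin_cases i <;> fin_cases j
    · simp
    · simp
    · simp
    · simp only [Fin.mk_one, Fin.isValue, Matrix.add_apply, Matrix.smul_apply, Matrix.of_apply,
        Matrix.cons_val', Matrix.cons_val_one, Matrix.cons_val_fin_one, smul_eq_mul]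
      field_simp
      ring
  rw [h3] at h1
  have h4 : Gl p f u2 ≤ (1 - (u2 - u1) / (u3 - u1)) * Gl p f u1 +
      (u2 - u1) / (u3 - u1) * Gl p f u3 := h1
  have h5 := mul_le_mul_of_nonneg_left h4 hd.le
  have h6 : (u3 - u1) * ((1 - (u2 - u1) / (u3 - u1)) * Gl p f u1 +
      (u2 - u1) / (u3 - u1) * Gl p f u3) = (u3 - u2) * Gl p f u1 + (u2 - u1) * Gl p f u3 := by
    field_simp
    ring
  rwa [h6] at h5

theorem main : Pool.Agent.W707.HM.S_QE := by
  intro p f _ hW t ht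
  obtain ⟨ht1, ht2⟩ := ht
  rcases eq_or_lt_of_le ht1 with ht1 | ht1
  · subst ht1
    have : f (-1) * (1 - p / 2 * (1 + -1)) = f (-1) := by ring
    rw [this]
  set k : ℝ := (f t - f (-1)) / (t + 1) with hk
  have ht0 : 0 < t + 1 := by linarith
  have hkt : k * (t + 1) = f t - f (-1) := by
    rw [hk]
    field_simp
  -- the inequality for small `e`
  have hev : ∀ᶠ e : ℝ in 𝓝[>] 0, 0 ≤ e⁻¹ • (((1 + (0 + e)) ^ p *
      (f (-1) + k * ((0 + e) / (1 + (0 + e)))) + (0 + e) * k) -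
      ((1 + 0) ^ p * (f (-1) + k * (0 / (1 + 0))) + 0 * k)) := by
    have h1 : ∀ᶠ e : ℝ in 𝓝[>] 0, e ∈ Ioo 0 (t + 1) := Ioo_mem_nhdsGT ht0
    filter_upwards [h1] with e he
    obtain ⟨he0, het⟩ := he
    rw [smul_eq_mul]
    refine mul_nonneg (inv_nonneg.2 he0.le) ?_
    simp only [zero_add, add_zero, Real.one_rpow, one_mul, zero_div, mul_zero, zero_mul]
    have he1 : 0 < 1 + e := by linarith
    have hu1 : -1 / (1 + e) + 1 = e / (1 + e) := by field_simp; ring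
    have hu2 : e / (1 + e) ≤ e := div_le_self he0.le (by linarith)
    have hu3 : 0 ≤ e / (1 + e) := by positivity
    -- convexity of `f`
    have h2 := three hW (u1 := -1) (u2 := -1 / (1 + e)) (u3 := t) (by linarith) (by linarith)
      (by linarith)
    rw [Gl_mid p f (u := -1 / (1 + e)) (by linarith) (by linarith),
      Gl_mid p f (u := -1) le_rfl (by norm_num), Gl_mid p f ht1.le ht2] at h2
    have h3 : f (-1 / (1 + e)) ≤ f (-1) + k * (e / (1 + e)) := by
      have h4 : (t + 1) * f (-1 / (1 + e)) ≤ (t + 1) * (f (-1) + k * (e / (1 + e))) := by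
        have h5 : (t + 1) * (f (-1) + k * (e / (1 + e))) =
            (t + 1) * f (-1) + (k * (t + 1)) * (e / (1 + e)) := by ring
        rw [h5, hkt, ← hu1]
        linarith
      exact le_of_mul_le_mul_left h4 ht0
    -- convexity at `-1`
    have h6 := three hW (u1 := -1 - e) (u2 := -1) (u3 := t) (by linarith) (by linarith)
      (by linarith)
    rw [Gl_mid p f (u := -1) le_rfl (by norm_num), Gl_mid p f ht1.le ht2, Gl_neg p f he0.le] at h6
    have h7 : (1 + e) ^ p * f (-1 / (1 + e)) ≤ (1 + e) ^ p * (f (-1) + k * (e / (1 + e))) :=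
      mul_le_mul_of_nonneg_left h3 (Real.rpow_nonneg he1.le p)
    have h8 : (t + 1) * f (-1) ≤ (t + 1) * ((1 + e) ^ p * (f (-1) + k * (e / (1 + e))) + e * k) := by
      have h9 := mul_le_mul_of_nonneg_left h7 ht0.le
      have h10 : (t + 1) * (e * k) = e * (f t - f (-1)) := by rw [← hkt]; ring
      linarith
    have h11 := le_of_mul_le_mul_left h8 ht0
    linarith
  -- the derivative
  have hder : HasDerivAt (fun e : ℝ => (1 + e) ^ p * (f (-1) + k * (e / (1 + e))) + e * k)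
      (p * f (-1) + k + k) 0 := by
    have h1 : HasDerivAt (fun e : ℝ => 1 + e) 1 0 := (hasDerivAt_id (0 : ℝ)).const_add 1
    have h2 : HasDerivAt (fun e : ℝ => (1 + e) ^ p) (1 * p * (1 + 0) ^ (p - 1)) 0 :=
      h1.rpow_const (Or.inl (by norm_num))
    have h3 : HasDerivAt (fun e : ℝ => e / (1 + e)) ((1 * (1 + 0) - 0 * 1) / (1 + 0) ^ 2) 0 :=
      (hasDerivAt_id (0 : ℝ)).div h1 (by norm_num)
    have h4 := (h2.mul ((h3.const_mul k).const_add (f (-1)))).add
      ((hasDerivAt_id (0 : ℝ)).mul_const k)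
    have h5 : 1 * p * (1 + 0) ^ (p - 1) * (f (-1) + k * (0 / (1 + 0))) +
        (1 + 0) ^ p * (k * ((1 * (1 + 0) - 0 * 1) / (1 + 0) ^ 2)) + 1 * k =
        p * f (-1) + k + k := by
      simp
    rw [← h5]
    exact h4
  have hlim := (hasDerivAt_iff_tendsto_slope_zero.1 hder).mono_left
    (nhdsWithin_mono (0 : ℝ) (s := Ioi 0) fun x hx => ne_of_gt (mem_Ioi.1 hx))
  have hge := ge_of_tendsto hlim hev
  -- conclusion
  have h1 : -(p / 2 * f (-1)) * (t + 1) ≤ k * (t + 1) :=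
    mul_le_mul_of_nonneg_right (by linarith) ht0.le
  rw [hkt] at h1
  linarith

end Pool.Agent.W253.HM707
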